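import Mathlib
import Pool.Agent.H317F.Rich

set_option autoImplicit false

/-!
A principal, amenable, étale groupoid without finite dynamical complexity.

The groupoid is the transformation groupoid of the shift on a free compact subsystem `XX` of
`[0,1]^ℤ`. The topological groupoids (`TopGpd`), étale, principal, amenable groupoids, generated
subgroupoids and unit spaces are defined in `Pool.Agent.H317F.Gpd`.

Idea. For a prime `p` the rotation by one step acts freely on the `p`-periodic sequences with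
minimum `0` and maximum `1`, which form a sphere of dimension `p - 2`; a `ℤ/p` Borsuk–Ulam theorem
shows that every equivariant cover by translates of one set has multiplicity at least `p - 1` at
every scale. The conditions defining `XX` (every window of a suitable length is robustly
non-`k`-periodic, for every `k`) remove from this sphere, at every finite stage, only a set having a
cover of multiplicity a small multiple of `p`. Each decomposition step in the definition of finite
dynamical complexity also loses only a small multiple of `p`, so some piece always keeps a positive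
proportion of `p`, which a relatively compact groupoid does not have.
-/

namespace Pool.Agent.Results.MP_b83b91_an.AmenablePrincipalNonFDC

open H317F

variable {X G : Type} [TopologicalSpace X] [TopologicalSpace G]

/-- The open subgroupoid `H` is decomposable over the set `𝒞` of subgroupoids: for every open
relatively compact `K ⊆ H` there are open sets `U₀, U₁` with `U₀ ∪ U₁ = H^(0)` such that for
`i = 0, 1` the subgroupoid generated by `{h ∈ K : s h ∈ Uᵢ}` belongs to `𝒞`. -/
def Decomposable (𝒢 : TopGpd X G) (𝒞 : Set (Set G)) (H : Set G) : Prop :=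
  ∀ K ⊆ H, IsOpen K → IsCompact (closure K) →
    ∃ U₀ U₁ : Set X, IsOpen U₀ ∧ IsOpen U₁ ∧ U₀ ∪ U₁ = 𝒢.units H ∧
      𝒢.gen {h ∈ K | 𝒢.s h ∈ U₀} ∈ 𝒞 ∧ 𝒢.gen {h ∈ K | 𝒢.s h ∈ U₁} ∈ 𝒞

/-- `𝒞` is a set of open subgroupoids that contains every relatively compact open subgroupoid and
is closed under decomposability. -/
structure IsAdmissible (𝒢 : TopGpd X G) (𝒞 : Set (Set G)) : Prop where
  openSubgpd : ∀ H ∈ 𝒞, 𝒢.IsOpenSubgpd H
  relCompact_mem : ∀ H, 𝒢.IsOpenSubgpd H → IsCompact (closure H) → H ∈ 𝒞
  closed : ∀ H, 𝒢.IsOpenSubgpd H → Decomposable 𝒢 𝒞 H → H ∈ 𝒞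

/-- The smallest admissible set `𝒟`. -/
def D (𝒢 : TopGpd X G) : Set (Set G) := ⋂₀ {𝒞 | IsAdmissible 𝒢 𝒞}

/-- Finite dynamical complexity. -/
def HasFDC (𝒢 : TopGpd X G) : Prop := Set.univ ∈ D 𝒢

/-- Decomposability is monotone in the set of subgroupoids. -/
lemma Decomposable.mono {𝒢 : TopGpd X G} {𝒞 𝒞' : Set (Set G)} (h : 𝒞 ⊆ 𝒞') {H : Set G}
    (hH : Decomposable 𝒢 𝒞 H) : Decomposable 𝒢 𝒞' H := by
  intro K hK h1 h2
  obtain ⟨U₀, U₁, h3, h4, h5, h6, h7⟩ := hH K hK h1 h2
  exact ⟨U₀, U₁, h3, h4, h5, h h6, h h7⟩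

/-- Sanity check: `D` is itself admissible, so it is the smallest admissible set. -/
lemma isAdmissible_D (𝒢 : TopGpd X G) : IsAdmissible 𝒢 (D 𝒢) where
  openSubgpd H hH := by
    have h1 : IsAdmissible 𝒢 {H | 𝒢.IsOpenSubgpd H} :=
      ⟨fun _ h => h, fun _ h _ => h, fun _ h _ => h⟩
    exact hH _ h1
  relCompact_mem H h1 h2 := fun 𝒞 h𝒞 => h𝒞.relCompact_mem H h1 h2
  closed H h1 h2 := fun 𝒞 h𝒞 =>
    h𝒞.closed H h1 (h2.mono (fun A (hA : A ∈ D 𝒢) => hA 𝒞 h𝒞))

/-- **Theorem.** There is a principal, amenable, étale groupoid (locally compact, Hausdorff, second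
countable, with compact metrizable unit space) that does not have finite dynamical complexity. -/
theorem result : ∃ (X G : Type) (_ : TopologicalSpace X) (_ : TopologicalSpace G)
    (𝒢 : TopGpd X G), LocallyCompactSpace G ∧ T2Space G ∧ SecondCountableTopology G ∧
      CompactSpace X ∧ TopologicalSpace.MetrizableSpace X ∧
      𝒢.Etale ∧ 𝒢.Principal ∧ 𝒢.Amenable ∧ ¬ HasFDC 𝒢 := by
  refine ⟨XT, GG, inferInstance, inferInstance, Zg, inferInstance, inferInstance, inferInstance,
    inferInstance, inferInstance, trans_etale _ _, trans_principal _ _ XT_free, trans_amenable _,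
    ?_⟩
  intro hD
  have h1 : IsAdmissible Zg {H : Set GG | Zg.IsOpenSubgpd H ∧ ¬ Rich H} := by
    refine ⟨fun H hH => hH.1, fun H hH hc => ⟨hH, not_rich_of_relCompact hH.2 hc⟩, ?_⟩
    intro H hH hdec
    refine ⟨hH, fun hr => ?_⟩
    obtain ⟨K, hKo, hKH, hKc, _, hK⟩ := rich_step hH.1 hH.2 hr
    obtain ⟨U₀, U₁, h3, h4, h5, h6, h7⟩ := hdec K hKH hKo hKc
    rcases hK U₀ U₁ h3 h4 h5.ge with h | h
    · exact h6.2 (h.mono (TopGpd.gen_mono fun g hg => ⟨hg.1, hg.2.1⟩))
    · exact h7.2 (h.mono (TopGpd.gen_mono fun g hg => ⟨hg.1, hg.2.1⟩))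
  exact (hD _ h1).2 rich_univ

end Pool.Agent.Results.MP_b83b91_an.AmenablePrincipalNonFDC
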